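import Mathlib

/-!
# MP_9b4c76_pr: the objects of the statement

Labels of particles: the root is `[]`, the `i`-th child of `u` is `i :: u`.
-/

namespace MP_9b4c76_pr

open MeasureTheory ProbabilityTheory Filter Topology
open scoped ENNReal NNReal

variable {V : Type*}

/-- `u` is the label of a particle, when `N v` is the number of offspring of `v`. -/
def IsParticle (N : List ℕ → ℕ) : List ℕ → Prop
  | [] => True
  | i :: u => IsParticle N u ∧ i < N u

/-- The trace: the graph formed by all edges traversed by particles; the particle `i :: u` is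
born at `X u` and steps to `X (i :: u)`. -/
def traceGraph (N : List ℕ → ℕ) (X : List ℕ → V) : SimpleGraph V where
  Adj a b := a ≠ b ∧ ∃ i u, IsParticle N (i :: u) ∧
    ((X u = a ∧ X (i :: u) = b) ∨ (X u = b ∧ X (i :: u) = a))
  symm := ⟨by
    rintro a b ⟨h, i, u, hu, h'⟩
    exact ⟨h.symm, i, u, hu, h'.symm⟩⟩
  loopless := ⟨fun a h => h.1 rfl⟩

/-- Number of ends: supremum over finite vertex sets `K` of the number of infinite connected
components of `H ∖ K`. -/
noncomputable def numEnds (H : SimpleGraph V) : ℕ∞ :=
  ⨆ K : Finset V, {C : (H.induce ((K : Set V)ᶜ)).ConnectedComponent | C.supp.Infinite}.encard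

open Classical in
/-- `n`-step transition probabilities of simple random walk. -/
noncomputable def stepProb (G : SimpleGraph V) [G.LocallyFinite] : ℕ → V → V → ℝ
  | 0, x, y => if x = y then 1 else 0
  | n + 1, x, y => ∑ z ∈ G.neighborFinset x, (G.degree x : ℝ)⁻¹ * stepProb G n z y

/-- `limsup_n P_x(X_n = y)^{1/n}`. -/
noncomputable def spectralRadius (G : SimpleGraph V) [G.LocallyFinite] (x y : V) : ℝ :=
  limsup (fun n : ℕ => (stepProb G n x y) ^ ((1 : ℝ) / n)) atTop

/-- Probability of the step leading to the particle `u`. -/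
noncomputable def stepFactor (G : SimpleGraph V) [G.LocallyFinite] (x : List ℕ → V) :
    List ℕ → ℝ≥0∞
  | [] => 1
  | i :: u => ENNReal.ofReal (stepProb G 1 (x u) (x (i :: u)))

/-- `(N, X)` is the branching random walk `BRW(G, μ, P)` started at `o`: the offspring numbers
`N u` are independent with law `μ`, and independently of them `X` is the simple random walk
indexed by the tree of labels, started at `o`. -/
structure IsBRW {Ω : Type*} [MeasurableSpace Ω] (G : SimpleGraph V) [G.LocallyFinite] (μ : PMF ℕ)
    (o : V) (P : Measure Ω) (N : List ℕ → Ω → ℕ) (X : List ℕ → Ω → V) : Prop where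
  meas_N : ∀ u n, MeasurableSet {ω | N u ω = n}
  meas_X : ∀ u x, MeasurableSet {ω | X u ω = x}
  law : ∀ F : Finset (List ℕ), [] ∈ F → (∀ i u, i :: u ∈ F → u ∈ F) →
    ∀ (k : List ℕ → ℕ) (x : List ℕ → V), x [] = o →
      P {ω | ∀ u ∈ F, N u ω = k u ∧ X u ω = x u} = ∏ u ∈ F, μ (k u) * stepFactor G x u

end MP_9b4c76_pr
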