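import Pool.Agent.Lib.MP_9b4c76_pr.Mg.G002
import Pool.Agent.Lib.MP_9b4c76_pr.Mg.G001

/-! Assembly. -/

namespace MP_9b4c76_pr

open MeasureTheory ProbabilityTheory Filter Topology
open scoped ENNReal NNReal

variable {V : Type*}

/-- TASK Z1. -/
theorem good_ae {d : ℕ} [NeZero d] {nb : V → Fin d → V} {ρ : ℝ≥0} {μ : PMF ℕ} [Countable V]
    (S : Setting nb ρ μ) (o : V) : ∀ᵐ c ∂(confLaw μ d), GoodObs (obs nb o c) := by
  have h3 : ∀ᵐ c ∂(confLaw μ d), ∀ z, {u | Alive c u ∧ pos nb o c u = z}.Finite :=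
    ae_all_iff.2 fun z => transient S o z
  filter_upwards [offspring_pos S, growth S, h3, branches S] with c h1 h2 h3 h4
  refine ⟨h1, ?_, ?_, ?_⟩
  · intro n
    obtain ⟨g, hg⟩ := h2 n
    refine ⟨g, ?_⟩
    simpa only [obs, isParticle_iff] using hg
  · intro z
    simpa only [obs, isParticle_iff] using h3 z
  · intro v i j hij
    refine (h4 v i j hij (pos nb o c (i :: v)) (pos nb o c (j :: v))).subset ?_
    rintro z ⟨⟨u, hu, hz⟩, ⟨u', hu', hz'⟩⟩
    simp only [obs, isParticle_iff] at hu hu' hz hz'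
    rw [alive_append] at hu hu'
    rw [pos_append] at hz hz'
    exact ⟨⟨u, hu.2, hz⟩, ⟨u', hu'.2, hz'⟩⟩

/-- The setting of the library for every offspring law with mean in `(1, 1/ρ]`. -/
theorem setting_of_graph_le (G : SimpleGraph V) [G.LocallyFinite] [Nontrivial V]
    (hconn : G.Connected) (htrans : ∀ x y : V, ∃ φ : G ≃g G, φ x = y) {d : ℕ} [NeZero d]
    {nb : V → Fin d → V} (hinj : ∀ x, Function.Injective (nb x))
    (hadj : ∀ x y, G.Adj x y ↔ ∃ j, nb x j = y) (hdeg : ∀ x, G.degree x = d)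
    (μ : PMF ℕ) (hμ0 : μ 0 = 0) (o : V) (h1 : 1 < ∑' n, μ n * n)
    (hcrit : ∑' n, μ n * n ≤ ENNReal.ofReal (spectralRadius G o o)⁻¹) :
    Setting nb (∑' n, μ n * n).toNNReal⁻¹ μ := by
  have hpos := spectralRadius_pos G hconn hdeg htrans o
  have hfin : ∑' n, μ n * n ≠ ⊤ := ne_top_of_le_ne_top ENNReal.ofReal_ne_top hcrit
  obtain ⟨m, hm⟩ : ∃ m : ℝ≥0, ∑' n, μ n * n = m := ⟨_, (ENNReal.coe_toNNReal hfin).symm⟩
  rw [hm] at h1 hcrit ⊢
  rw [ENNReal.toNNReal_coe]
  have hm1 : 1 < m := by exact_mod_cast h1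
  have hm0 : 0 < m := zero_lt_one.trans hm1
  have hle : spectralRadius G o o ≤ ((m⁻¹ : ℝ≥0) : ℝ) := by
    have h2 : m ≤ (spectralRadius G o o)⁻¹.toNNReal := by
      have := hcrit
      unfold ENNReal.ofReal at this
      exact_mod_cast this
    have h3 : (m : ℝ) ≤ (spectralRadius G o o)⁻¹ := by
      have h4 := NNReal.coe_le_coe.mpr h2
      rwa [Real.coe_toNNReal _ (inv_nonneg.mpr hpos.le)] at h4
    rw [NNReal.coe_inv]
    exact (le_inv_comm₀ (by exact_mod_cast hm0) hpos).mp h3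
  refine ⟨inv_pos.mpr hm0, inv_lt_one_of_one_lt₀ hm1, ?_, ?_, ?_, ?_, ?_, hμ0, ?_⟩
  · intro n x y
    rw [pn_eq_stepProb G hinj hadj hdeg, pn_eq_stepProb G hinj hadj hdeg,
      stepProb_symm G hdeg]
  · intro n x y
    rw [pn_eq_stepProb G hinj hadj hdeg]
    refine (ENNReal.ofReal_le_ofReal ((stepProb_le G hdeg htrans o n x y).trans
      (pow_le_pow_left₀ hpos.le hle n))).trans (le_of_eq ?_)
    rw [ENNReal.ofReal_pow (NNReal.coe_nonneg _), ENNReal.ofReal_coe_nnreal]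
  · intro x j
    have h : G.Adj x (nb x j) := (hadj _ _).2 ⟨j, rfl⟩
    exact (hadj _ _).1 h.symm
  · intro x y
    obtain ⟨p⟩ := hconn.preconnected x y
    exact q5_conn G hadj p
  · intro x y
    obtain ⟨φ, hφ⟩ := htrans x y
    refine ⟨φ.toEquiv, hφ, fun F z => ?_⟩
    unfold avg
    rw [q5_sum_nb G hinj hadj F, q5_sum_nb G hinj hadj (fun w => F (φ.toEquiv w))]
    congr 1
    symm
    refine Finset.sum_bij (fun w _ => φ w) ?_ ?_ ?_ ?_
    · intro w hw
      rw [SimpleGraph.mem_neighborFinset] at hw ⊢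
      exact φ.map_adj_iff.2 hw
    · intro a _ b _ h
      exact φ.injective h
    · intro w hw
      rw [SimpleGraph.mem_neighborFinset] at hw
      refine ⟨φ.symm w, ?_, φ.apply_symm_apply w⟩
      rw [SimpleGraph.mem_neighborFinset]
      have := φ.symm.map_adj_iff.2 hw
      simpa using this
    · intro w _
      rfl
  · rw [inv_inv]; exact hm

/-- Infinitely many ends for every offspring law with mean in `(1, 1/ρ]`. -/
theorem main [Nontrivial V] (G : SimpleGraph V) [G.LocallyFinite] (hconn : G.Connected)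
    (htrans : ∀ x y : V, ∃ φ : G ≃g G, φ x = y) (μ : PMF ℕ) (hμ0 : μ 0 = 0) (o : V)
    (h1 : 1 < ∑' n, μ n * n)
    (hcrit : ∑' n, μ n * n ≤ ENNReal.ofReal (spectralRadius G o o)⁻¹)
    {Ω : Type*} [MeasurableSpace Ω] (P : Measure Ω) [IsProbabilityMeasure P]
    (N : List ℕ → Ω → ℕ) (X : List ℕ → Ω → V) (h : IsBRW G μ o P N X) :
    ∀ᵐ ω ∂P, numEnds (traceGraph (fun u => N u ω) (fun u => X u ω)) = ⊤ := by
  obtain ⟨d, hd, nb, hinj, hadj, hdeg⟩ := exists_nb G hconn htrans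
  have hV : Countable V := countable_of_connected G hconn
  have S := setting_of_graph_le G hconn htrans hinj hadj hdeg μ hμ0 o h1 hcrit
  have hgood := transfer G hinj hadj hdeg μ o P h (good_ae S o)
  filter_upwards [hgood] with ω hω
  exact ends_top hω.1 hω.2.1 hω.2.2.1 hω.2.2.2

/-- Branching random walks exist. -/
theorem exists_isBRW [Nontrivial V] (G : SimpleGraph V) [G.LocallyFinite] (hconn : G.Connected)
    (htrans : ∀ x y : V, ∃ φ : G ≃g G, φ x = y) (μ : PMF ℕ) (o : V) :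
    ∃ (Ω : Type) (_ : MeasurableSpace Ω) (P : Measure Ω) (_ : IsProbabilityMeasure P)
      (N : List ℕ → Ω → ℕ) (X : List ℕ → Ω → V), IsBRW G μ o P N X := by
  obtain ⟨d, hd, nb, hinj, hadj, hdeg⟩ := exists_nb G hconn htrans
  refine ⟨Conf d, inferInstance, confLaw μ d, inferInstance, fun u c => (c u).1,
    fun u c => pos nb o c u, ?_, ?_, ?_⟩
  · intro u n
    exact ((measurable_pi_apply u).fst) (measurableSet_singleton n)
  · intro u x
    exact m2_pos (nb := nb) o u {x}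
  · intro F hF0 hF k x hx
    have := confLaw_cylinder G hinj hadj hdeg μ F hF0 hF k x
    rw [hx] at this
    exact this

end MP_9b4c76_pr
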